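import Pool.Agent.TH338.DD.Exact

/-!
Let `p, q ≥ 2` be coprime. The points of the circle whose orbit under the multiplicative semigroup
generated by `p` and `q` is equidistributed in the windows `X ≤ n < H X` for a proportion of the
scales `X = 2 ^ i` smaller than `θ` form a set of Hausdorff dimension exactly `θ`.
-/

set_option autoImplicit false

open MeasureTheory Filter Topology
open scoped ENNReal NNReal

namespace Pool.Agent.Results.MP_e27144_an.DimensionDensity

open Classical in
/-- The window of the numbers `n = p ^ a * q ^ b` with `X ≤ n < Y`. -/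
noncomputable def window (p q : ℕ) (X Y : ℝ) : Finset ℕ :=
  (Finset.range ⌈Y⌉₊).filter fun n => (∃ a b : ℕ, n = p ^ a * q ^ b) ∧ X ≤ n

open Classical in
/-- The number of the `n` in the window such that `n x` lies in the closed arc of centre `c` and
radius `r`. -/
noncomputable def visits (p q : ℕ) (X Y : ℝ) (x c : UnitAddCircle) (r : ℝ) : ℕ :=
  ((window p q X Y).filter fun n => ‖n • x - c‖ ≤ r).card

/-- The orbit of `x` is equidistributed up to `ε` in the window `X ≤ n < H X`: the window is not
empty and every arc is visited with frequency its length, up to `ε`. -/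
def Equidistributed (p q : ℕ) (ε H X : ℝ) (x : UnitAddCircle) : Prop :=
  (window p q X (H * X)).Nonempty ∧ ∀ c : UnitAddCircle, ∀ r : ℝ, 0 ≤ r → r ≤ 1 / 2 →
    |(visits p q X (H * X) x c r : ℝ) - 2 * r * (window p q X (H * X)).card| ≤
      ε * (window p q X (H * X)).card

open Classical in
/-- The number of the scales `X = 2 ^ i` with `i < n` at which the window `X ≤ m < H X` of the
orbit of `x` is equidistributed up to `ε`. -/
noncomputable def scales (p q : ℕ) (ε H : ℝ) (n : ℕ) (x : UnitAddCircle) : ℕ :=
  ((Finset.range n).filter fun i => Equidistributed p q ε H (2 ^ i) x).card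

/-- For every precision `ε` and every large ratio `H` at least the proportion `θ` of the scales up
to `2 ^ n` is equidistributed, for all large `n`. -/
def DenselyEquidistributed (p q : ℕ) (θ : ℝ) (x : UnitAddCircle) : Prop :=
  ∀ ε : ℝ, 0 < ε → ∃ H₀ : ℕ, ∀ H : ℕ, H₀ ≤ H → ∀ᶠ n : ℕ in atTop, θ * n ≤ scales p q ε H n x

/-- **The dimension of the points with a small density of equidistributed scales.** Let `p, q ≥ 2`
be coprime and `0 ≤ θ ≤ 1`. The set of the points of the circle for which the windows of the orbit
under the semigroup generated by `p` and `q` are not equidistributed at a proportion at least `θ`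
of the scales has Hausdorff dimension exactly `θ`. -/
theorem result (p q : ℕ) (hp : 2 ≤ p) (hq : 2 ≤ q) (hpq : Nat.Coprime p q) (θ : ℝ≥0)
    (hθ : θ ≤ 1) :
    dimH {x : UnitAddCircle | ¬ DenselyEquidistributed p q θ x} = θ :=
  Pool.Agent.TH338.DD.dim_eq hp hq hpq θ hθ

end Pool.Agent.Results.MP_e27144_an.DimensionDensity
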