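import Mathlib
import Pool.Agent.TH461.FGK.Cov

/-!
# Almost periods and covering numbers for `×p, ×q` invariant measures

For EVERY Borel probability measure `μ` on `R/Z` invariant under `x ↦ p x` and `x ↦ q x` (with or
without atoms, no entropy assumption) a rate of almost periods `n_N ≤ 2 ^ N`,
`1 - Re μ^(n_N) ≤ N ^ (-κ)` with `κ > κ₀`, where `κ₀ = 0` for `×2, ×3` (so ANY positive power
of `N` is enough), forces `μ` to be purely atomic; so does a polynomial bound `C ε ^ (-D)` for the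
covering numbers of the orbit `e (p ^ i q ^ j x)`, `i, j ≥ 0`, of the first character in `L ^ 2 (μ)`
(for `×2, ×3` with ANY exponent `D`).  Each of these properties characterises the finitely
supported measures among the jointly ergodic ones.
-/

set_option autoImplicit false

open MeasureTheory Filter Topology

namespace Pool.Agent.Results.MP_e27144_an.FourierGrowth

/-- Let `p, q ≥ 2` be multiplicatively independent.  There is `0 ≤ κ₀ < 1`, with `κ₀ = 0` if `p`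
and `q` are products of powers of two coprime numbers (for instance `p, q` coprime), such that for
every probability measure `μ` on the circle invariant under `x ↦ p x` and `x ↦ q x`: if for some
`κ > κ₀` and some `1 ≤ n_N ≤ 2 ^ N` the series `∑ N ^ (κ - 1) (1 - Re μ^(n_N))` converges, or if
for some `κ > κ₀` and all large `N` there is `1 ≤ n ≤ 2 ^ N` with `1 - Re μ^(n) ≤ N ^ (-κ)`, or if
for some `C` and `D > 0` with `D κ₀ < 4` the orbit `e (p ^ i q ^ j x)`, `i, j ≥ 0`, is covered by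
at most `C ε ^ (-D)` balls of radius `ε` of `L ^ 2 (μ)` centred at characters, for all
`0 < ε ≤ 1`, then `μ` is purely atomic (it is carried by the points of finite order); and if `μ` is
ergodic for the joint action these three properties, `μ^(n) = 1` for some `n ≥ 1`, and the
finiteness of the support of `μ` are equivalent. -/
theorem result (p q : ℕ) (hp : 2 ≤ p) (hq : 2 ≤ q)
    (hpq : Irrational (Real.log (p : ℝ) / Real.log (q : ℝ))) :
    ∃ κ₀ : ℝ, 0 ≤ κ₀ ∧ κ₀ < 1 ∧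
      ((∃ u v a b c d : ℕ, 2 ≤ u ∧ 2 ≤ v ∧ Nat.Coprime u v ∧ p = u ^ a * v ^ b ∧
        q = u ^ c * v ^ d ∧ a * d ≠ b * c) → κ₀ = 0) ∧
      ∀ μ : Measure UnitAddCircle, IsProbabilityMeasure μ →
        MeasurePreserving (fun x : UnitAddCircle => p • x) μ μ →
        MeasurePreserving (fun x : UnitAddCircle => q • x) μ μ →
        (((∃ κ : ℝ, κ₀ < κ ∧ ∃ n : ℕ → ℕ, (∀ N, 1 ≤ n N ∧ n N ≤ 2 ^ N) ∧ Summable (fun N : ℕ =>
            (N : ℝ) ^ (κ - 1) * (1 - (∫ x, fourier (n N : ℤ) x ∂μ).re))) ∨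
          (∃ κ : ℝ, κ₀ < κ ∧ ∀ᶠ N : ℕ in atTop, ∃ n : ℕ, 1 ≤ n ∧ n ≤ 2 ^ N ∧
            1 - (∫ x, fourier (n : ℤ) x ∂μ).re ≤ (N : ℝ) ^ (-κ)) ∨
          ∃ C D : ℝ, 0 < D ∧ D * κ₀ < 4 ∧ ∀ ε : ℝ, 0 < ε → ε ≤ 1 → ∃ S : Finset ℤ,
            (S.card : ℝ) ≤ C * ε ^ (-D) ∧ ∀ i j : ℕ, ∃ m ∈ S,
              ∫ x, ‖fourier ((p ^ i * q ^ j : ℕ) : ℤ) x - fourier m x‖ ^ 2 ∂μ ≤ ε ^ 2) →
          μ {x | ∃ n : ℕ, 1 ≤ n ∧ n • x = 0} = 1) ∧
        ((∀ E : Set UnitAddCircle, MeasurableSet E →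
            (fun x : UnitAddCircle => p • x) ⁻¹' E = E →
            (fun x : UnitAddCircle => q • x) ⁻¹' E = E → μ E = 0 ∨ μ E = 1) →
          List.TFAE [
            ∃ F : Set UnitAddCircle, F.Finite ∧ μ F = 1,
            ∃ n : ℕ, 1 ≤ n ∧ ∫ x, fourier (n : ℤ) x ∂μ = 1,
            ∃ κ : ℝ, κ₀ < κ ∧ ∀ᶠ N : ℕ in atTop, ∃ n : ℕ, 1 ≤ n ∧ n ≤ 2 ^ N ∧
              1 - (∫ x, fourier (n : ℤ) x ∂μ).re ≤ (N : ℝ) ^ (-κ),
            ∃ κ : ℝ, κ₀ < κ ∧ ∃ n : ℕ → ℕ, (∀ N, 1 ≤ n N ∧ n N ≤ 2 ^ N) ∧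
              Summable (fun N : ℕ =>
                (N : ℝ) ^ (κ - 1) * (1 - (∫ x, fourier (n N : ℤ) x ∂μ).re)),
            ∃ C D : ℝ, 0 < D ∧ D * κ₀ < 4 ∧ ∀ ε : ℝ, 0 < ε → ε ≤ 1 → ∃ S : Finset ℤ,
              (S.card : ℝ) ≤ C * ε ^ (-D) ∧ ∀ i j : ℕ, ∃ m ∈ S,
                ∫ x, ‖fourier ((p ^ i * q ^ j : ℕ) : ℤ) x - fourier m x‖ ^ 2 ∂μ ≤ ε ^ 2]) := by
  obtain ⟨κ₀, h0, h1, h2, hNC⟩ := Pool.Agent.TH461.FGK.nc hp hq hpq
  refine ⟨κ₀, h0, h1, fun h => h2 h, fun μ hμ hμp hμq => ⟨?_, ?_⟩⟩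
  · rintro (⟨κ, hκ, n, hn, hs⟩ | ⟨κ, hκ, hr⟩ | ⟨C, D, hD0, hD, hcov⟩)
    · exact Pool.Agent.TH654.FC.atomic_of_summable hp hq (hNC κ hκ) μ hμp hμq n hn hs
    · obtain ⟨κ1, e1, e2⟩ := exists_between hκ
      exact Pool.Agent.TH654.FC.atomic_of_rate hp hq (hNC κ1 e1) μ hμp hμq e2 hr
    · obtain ⟨κ, e1, e2⟩ : ∃ κ, κ₀ < κ ∧ κ < 4 / D :=
        exists_between (by rw [lt_div_iff₀ hD0]; linarith)
      rw [lt_div_iff₀ hD0] at e2
      exact Pool.Agent.TH461.FGK.atomic_of_cov hp hq hpq (lt_of_le_of_lt h0 e1) (hNC κ e1) μ hμp hμq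
        hD0 (by linarith) hcov
  · intro herg
    exact Pool.Agent.TH461.FGK.tfae5 hp hq hpq h0 h1 hNC μ hμp hμq herg

end Pool.Agent.Results.MP_e27144_an.FourierGrowth
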