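import Mathlib
import Pool.Agent.TH338.LG.Pw

/-!
# Dilates of a `T_p`-invariant measure of positive entropy are asymptotically independent

`p = l ^ e` is a power of a prime `l` and `μ` is any probability measure on the circle invariant
under `x ↦ p x` and of positive entropy on every invariant set of positive measure (for instance
ergodic of positive entropy, `posEnt_of_ergodic` below). `ν` is any probability measure absolutely
continuous with respect to `μ`; no invariance of `ν` is assumed.

1. Let `S` be a finite set of primes and `s_1(t), …, s_k(t)`, `t = 0, 1, 2, …`, sequences of positive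
integers all of whose prime factors are in `S`, such that for each `i` and each `a` only finitely
many `t` have `s_i(t) = a l ^ v` for some `v`, and for `i ≠ j` each rational number is the value of
`s_i(t) / s_j(t)` for only finitely many `t`. Then the images of `ν` under `x ↦ (s_1(t) x, …, s_k(t) x)` converge weak-* to Lebesgue
measure on the `k`-dimensional torus: the dilates `s_i(t) x` become independent of each other and of
`x`, and uniformly distributed.

2. In particular this is so for `s_i = q ^ n_i(t)` if `q ≥ 2` is not a power of `l` (that is, if `p`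
and `q` are multiplicatively independent), `n_i(t) → ∞` and `|n_i(t) - n_j(t)| → ∞`: mixing of all
orders of multiplication by `q`, with respect to a measure which need not be invariant under it.

The definitions used in the statement, from the imported files:

* `rep x` is the representative of `x` in `[0, 1)`;
* `cell p n x` is the integer part of `p ^ n * rep x`, the index of the `p`-adic interval of
  level `n` containing `x`;
* `Hn p μ n` is the Shannon entropy of the partition into `p`-adic intervals of level `n`;
* `ent p μ` is the limit superior of `Hn p μ n / n`, which for an invariant measure is the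
  Kolmogorov-Sinai entropy (the partition of level one is a generator);
* `PosEnt p μ`: for every Borel set `B` of positive measure whose preimage under `x ↦ p x` is
  `B`, the measure `μ` conditioned on `B` has positive entropy.
-/

set_option autoImplicit false
open MeasureTheory Filter Topology
open Pool.Agent.TH338.LG

namespace Pool.Agent.Results.MP_e27144_an.IndependentDilates

/-- an ergodic measure of positive entropy satisfies `PosEnt` -/
theorem posEnt_of_ergodic (p : ℕ) (μ : Measure UnitAddCircle) [IsProbabilityMeasure μ]
    (h : Ergodic (fun x : UnitAddCircle => p • x) μ) (hpos : 0 < ent p μ) : PosEnt p μ := by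
  intro B mB hB hB0
  have h1 : μ Bᶜ = 0 := by
    rcases h.toPreErgodic.measure_self_or_compl_eq_zero mB hB with h2 | h2
    · exact absurd h2 hB0.ne'
    · exact h2
  have h2 : ProbabilityTheory.cond μ B = μ := by
    have h3 : μ B = 1 := (prob_compl_eq_zero_iff mB).1 h1
    rw [ProbabilityTheory.cond, h3, inv_one, one_smul]
    exact Measure.restrict_eq_self_of_ae_mem (mem_ae_iff.2 h1)
  rw [h2]
  exact hpos

theorem result (l e : ℕ) (hl : l.Prime) (he : 0 < e)
    (μ ν : Measure UnitAddCircle) [IsProbabilityMeasure μ] [IsProbabilityMeasure ν]
    (hinv : MeasurePreserving (fun x : UnitAddCircle => l ^ e • x) μ μ)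
    (hent : PosEnt (l ^ e) μ) (hν : ν ≪ μ) (k : ℕ) (f : C(Fin k → UnitAddCircle, ℂ)) :
    (∀ (S : Finset ℕ) (s : ℕ → Fin k → ℕ),
      (∀ t i, s t i ≠ 0 ∧ (s t i).primeFactors ⊆ S) →
      (∀ (i : Fin k) (a : ℕ), {t | ∃ v : ℕ, s t i = a * l ^ v}.Finite) →
      (∀ i j : Fin k, i ≠ j → ∀ r : ℚ, {t | (s t i : ℚ) / s t j = r}.Finite) →
      Tendsto (fun t => ∫ x, f (fun i => s t i • x) ∂ν) atTop (𝓝 (∫ y, f y))) ∧
    (∀ (q : ℕ), 2 ≤ q → (∀ v : ℕ, q ≠ l ^ v) → ∀ n : ℕ → Fin k → ℕ,
      (∀ i, Tendsto (fun t => n t i) atTop atTop) →
      (∀ i j, i ≠ j → Tendsto (fun t => |(n t i : ℤ) - n t j|) atTop atTop) →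
      Tendsto (fun t => ∫ x, f (fun i => q ^ n t i • x) ∂ν) atTop (𝓝 (∫ y, f y))) :=
  ⟨fun S s hs h1 h2 => mix_pow hl he μ ν hinv hent hν S s (fun t i => (hs t i).1)
      (fun t i => (hs t i).2) h1 h2 f,
    fun _ hq hql n hn hn2 => mix_one hl he μ ν hinv hent hν hq hql n hn hn2 f⟩

end Pool.Agent.Results.MP_e27144_an.IndependentDilates
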